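import Mathlib
import Pool.Agent.V11276.GBin

set_option autoImplicit false

namespace Pool.Agent.Results.MP_cb2649_nt.GcdBinom

open Finset Pool.Agent.V11276.GBin

/-- `G k` is the gcd of the binomial coefficients `C(jk, k)`, `j = 2, ..., k + 1`. -/
def G (k : ℕ) : ℕ := (Icc 2 (k + 1)).gcd (fun j => (j * k).choose k)

/-- `P k` is the largest prime-power divisor `p ^ (v_p k)` in the factorisation of `k`. -/
def P (k : ℕ) : ℕ := k.primeFactors.sup (fun p => p ^ k.factorization p)

theorem G_eq_one_iff {k : ℕ} (hk : 1 ≤ k) :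
    G k = 1 ↔ ∀ p ∈ (k + 1).primeFactors,
      p ^ (k + 1).factorization p < (k + 1) / p ^ (k + 1).factorization p := by
  constructor
  · intro hG p hp
    have hpp := Nat.prime_of_mem_primeFactors hp
    by_contra hcon
    push Not at hcon
    have hmul : k + 1 = p ^ (k + 1).factorization p * ((k + 1) / p ^ (k + 1).factorization p) :=
      (Nat.ordProj_mul_ordCompl_eq_self (k + 1) p).symm
    have : p ∣ G k := by
      unfold G
      rw [Finset.dvd_gcd_iff]
      intro j hj
      rw [mem_Icc] at hj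
      exact all_dvd hpp hk hmul hcon hj.1 hj.2
    rw [hG] at this
    exact hpp.one_lt.ne' (Nat.dvd_one.1 this)
  · intro h
    rw [Nat.eq_one_iff_not_exists_prime_dvd]
    intro p hp hd
    unfold G at hd
    rw [Finset.dvd_gcd_iff] at hd
    have hmul : k + 1 = p ^ (k + 1).factorization p * ((k + 1) / p ^ (k + 1).factorization p) :=
      (Nat.ordProj_mul_ordCompl_eq_self (k + 1) p).symm
    have hnd : ¬ p ∣ (k + 1) / p ^ (k + 1).factorization p :=
      Nat.not_dvd_ordCompl hp (by omega)
    have hlt : p ^ (k + 1).factorization p < (k + 1) / p ^ (k + 1).factorization p := by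
      by_cases hpk : p ∣ k + 1
      · exact h p (Nat.mem_primeFactors.2 ⟨hp, hpk, by omega⟩)
      · rw [Nat.factorization_eq_zero_of_not_dvd hpk]
        simp; omega
    obtain ⟨j, h1, h2, h3⟩ := exists_not_dvd hp hmul hnd hlt
    exact h3 (hd j (mem_Icc.2 ⟨h1, h2⟩))

theorem P_lt_iff {n : ℕ} (hn : 2 ≤ n) :
    P n < n / P n ↔ ∀ p ∈ n.primeFactors,
      p ^ n.factorization p < n / p ^ n.factorization p := by
  have hne : n.primeFactors.Nonempty := by
    rw [Nat.nonempty_primeFactors]; omega
  obtain ⟨p0, hp0, hP⟩ := Finset.exists_mem_eq_sup n.primeFactors hne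
    (fun p => p ^ n.factorization p)
  constructor
  · intro h p hp
    have h1 : p ^ n.factorization p ≤ P n :=
      Finset.le_sup (f := fun p => p ^ n.factorization p) hp
    have h2 : 0 < p ^ n.factorization p :=
      pow_pos (Nat.prime_of_mem_primeFactors hp).pos _
    calc p ^ n.factorization p ≤ P n := h1
      _ < n / P n := h
      _ ≤ _ := Nat.div_le_div_left h1 h2
  · intro h
    have h1 : P n = p0 ^ n.factorization p0 := hP
    rw [h1]
    exact h p0 hp0

theorem main {k : ℕ} (hk : 1 ≤ k) : G k = 1 ↔ P (k + 1) < (k + 1) / P (k + 1) := by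
  rw [G_eq_one_iff hk, P_lt_iff (by omega)]

theorem G29 : G 29 = 1 := by
  rw [G_eq_one_iff (by omega)]
  intro p hp
  have hpp := Nat.prime_of_mem_primeFactors hp
  have hd : p ∣ 2 * 3 * 5 := Nat.dvd_of_mem_primeFactors hp
  have hv : p ^ (29 + 1).factorization p = p := by
    have hsq : Squarefree (29 + 1) := by
      rw [show (29 + 1 : ℕ) = 2 * 3 * 5 by norm_num]
      rw [Nat.squarefree_mul_iff, Nat.squarefree_mul_iff]
      refine ⟨by norm_num, ⟨by norm_num, Nat.prime_two.squarefree, Nat.prime_three.squarefree⟩,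
        Nat.prime_five.squarefree⟩
    have h1 : (29 + 1).factorization p = 1 := by
      apply Nat.factorization_eq_one_of_squarefree hsq hpp
      simpa using hd
    rw [h1, pow_one]
  rw [hv]
  rcases (Nat.Prime.dvd_mul hpp).1 hd with h | h
  · rcases (Nat.Prime.dvd_mul hpp).1 h with h | h
    · rw [(Nat.prime_dvd_prime_iff_eq hpp Nat.prime_two).1 h]; norm_num
    · rw [(Nat.prime_dvd_prime_iff_eq hpp Nat.prime_three).1 h]; norm_num
  · rw [(Nat.prime_dvd_prime_iff_eq hpp Nat.prime_five).1 h]; norm_num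

theorem not29 : ¬ (P 29 < 29 / P 29) := by
  rw [P_lt_iff (by norm_num)]
  intro h
  have hp : Nat.Prime 29 := by norm_num
  have := h 29 (Nat.mem_primeFactors.2 ⟨hp, dvd_rfl, by norm_num⟩)
  rw [Nat.Prime.factorization_self hp] at this
  norm_num at this

theorem result :
    (¬ ∀ k : ℕ, 2 ≤ k → (G k = 1 ↔ P k < k / P k)) ∧
    (∀ k : ℕ, 1 ≤ k → (G k = 1 ↔ P (k + 1) < (k + 1) / P (k + 1))) := by
  refine ⟨fun h => ?_, fun k hk => main hk⟩
  exact not29 ((h 29 (by norm_num)).1 G29)

end Pool.Agent.Results.MP_cb2649_nt.GcdBinom
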